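import Mathlib

/-!
# [H13 RI A] A valuation ring `V` of `K` over `E` with a pole of `x`: values of polynomials

`v = V.valuation`; `v z ≤ 1` iff `z ∈ V` (`ValuationSubring.valuation_le_one_iff`), `1 < v x` iff `x ∉ V`. Nonzero constants
have value 1 (they and their inverses are in `V`).
* `val_const`.
* `val_aeval`: `p = C c + X * p.divX` (`Polynomial.divX_mul_X_add`), `v (z * aeval z p.divX) < 1`, `v c = 1`.
* `val_trail`: `p = X ^ j * p'`, `j = p.natTrailingDegree`, `p'.coeff 0 ≠ 0`, and `val_aeval`.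
* `val_top`: `p = ∑_(i ≤ N) p_i X ^ i`, so the difference is `∑_(i < N) p_i x ^ i / x ^ N` and `v (x ^ i / x ^ N) ≤ v x⁻¹`.
* `val_le_pow`: from `val_top`, as `v (p_N) ≤ 1`, `v x⁻¹ ≤ 1`. `val_deg`: from `val_top` with `N = natDegree p`.
* `lin_dep`: a nontrivial relation `∑ a_i y_i = 0` with `a_i ∈ E(x)`; `a_i = r_i(x)/s_i(x)`
  (`IntermediateField.mem_adjoin_simple_iff`; if `a_i = 0` take `s_i = 1`, otherwise `s_i(x) ≠ 0`), multiply by `∏ s_i(x)`.
-/

set_option autoImplicit false

open Polynomial IntermediateField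

namespace Pool.Agent.H13.RI

variable {E K : Type} [Field E] [Field K] [Algebra E K]

private theorem val_base {V : ValuationSubring K} (hb : ∀ e : E, algebraMap E K e ∈ V) (c : E) :
    V.valuation (algebraMap E K c) ≤ 1 := (V.valuation_le_one_iff _).2 (hb c)

theorem val_const {V : ValuationSubring K} (hb : ∀ e : E, algebraMap E K e ∈ V) {c : E} (hc : c ≠ 0) :
    V.valuation (algebraMap E K c) = 1 := by
  refine le_antisymm (val_base hb c) ?_
  have h1 := val_base hb c⁻¹
  have hc' : algebraMap E K c ≠ 0 := (_root_.map_ne_zero _).2 hc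
  have hv : V.valuation (algebraMap E K c) ≠ 0 := (Valuation.ne_zero_iff _).2 hc'
  rw [map_inv₀, map_inv₀] at h1
  exact (inv_le_one₀ (zero_lt_iff.2 hv)).1 h1

private theorem val_ne {V : ValuationSubring K} {x : K} (hx : x ∉ V) : 1 < V.valuation x := by
  rw [← not_le, V.valuation_le_one_iff]
  exact hx

private theorem aeval_mem {V : ValuationSubring K} (hb : ∀ e : E, algebraMap E K e ∈ V) {z : K}
    (hz : V.valuation z ≤ 1) (p : E[X]) : V.valuation (aeval z p) ≤ 1 := by
  rw [aeval_eq_sum_range]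
  refine Valuation.map_sum_le _ fun i _ => ?_
  rw [Algebra.smul_def, map_mul, map_pow]
  exact mul_le_one' (val_base hb _) (pow_le_one' hz _)

theorem val_aeval {V : ValuationSubring K} (hb : ∀ e : E, algebraMap E K e ∈ V) {z : K}
    (hz : V.valuation z < 1) {p : E[X]} (hp : p.coeff 0 ≠ 0) : V.valuation (aeval z p) = 1 := by
  have h1 : aeval z p = aeval z p.divX * z + algebraMap E K (p.coeff 0) := by
    conv_lhs => rw [← divX_mul_X_add p]
    rw [map_add, map_mul, aeval_X, aeval_C]
  have h2 : V.valuation (aeval z p.divX * z) < 1 := by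
    rw [map_mul]
    refine lt_of_le_of_lt (mul_le_of_le_one_left' (aeval_mem hb hz.le p.divX)) hz
  have h3 := val_const hb hp
  rw [h1, Valuation.map_add_eq_of_lt_right _ (by rw [h3]; exact h2), h3]

theorem val_trail {V : ValuationSubring K} (hb : ∀ e : E, algebraMap E K e ∈ V) {z : K}
    (hz : V.valuation z < 1) {p : E[X]} (hp : p ≠ 0) :
    V.valuation (aeval z p) = V.valuation z ^ p.natTrailingDegree := by
  have h1 : X ^ p.natTrailingDegree ∣ p := by
    rw [X_pow_dvd_iff]
    intro d hd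
    exact coeff_eq_zero_of_lt_natTrailingDegree hd
  obtain ⟨q, hq⟩ := h1
  have h2 : q.coeff 0 ≠ 0 := by
    have h3 : p.coeff p.natTrailingDegree ≠ 0 := by
      have := trailingCoeff_nonzero_iff_nonzero.2 hp
      exact this
    have h4 := coeff_X_pow_mul q p.natTrailingDegree 0
    rw [zero_add, ← hq] at h4
    rwa [← h4]
  conv_lhs => rw [hq]
  rw [map_mul, map_pow, aeval_X, map_mul, map_pow, val_aeval hb hz h2, mul_one]

theorem val_top {V : ValuationSubring K} (hb : ∀ e : E, algebraMap E K e ∈ V) {x : K} (hx : x ∉ V)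
    {p : E[X]} {N : ℕ} (hp : p.natDegree ≤ N) :
    V.valuation (aeval x p / x ^ N - algebraMap E K (p.coeff N)) ≤ (V.valuation x)⁻¹ := by
  have hx1 := val_ne hx
  have hx0 : x ≠ 0 := by
    rintro rfl
    exact hx V.zero_mem
  have hv0 : V.valuation x ≠ 0 := (Valuation.ne_zero_iff _).2 hx0
  have h1 : aeval x p / x ^ N - algebraMap E K (p.coeff N) =
      ∑ i ∈ Finset.range N, algebraMap E K (p.coeff i) * x ^ i / x ^ N := by
    rw [aeval_eq_sum_range' (Nat.lt_succ_of_le hp), Finset.sum_range_succ, add_div,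
      Finset.sum_div, Algebra.smul_def, mul_div_assoc, div_self (pow_ne_zero N hx0), mul_one,
      add_sub_cancel_right]
    refine Finset.sum_congr rfl fun i _ => ?_
    rw [Algebra.smul_def]
  rw [h1]
  refine Valuation.map_sum_le _ fun i hi => ?_
  rw [Finset.mem_range] at hi
  rw [map_div₀, map_mul, map_pow, map_pow]
  have h2 : V.valuation x ^ N = V.valuation x ^ i * V.valuation x ^ (N - i) := by
    rw [← pow_add]
    congr 1
    omega
  have h3 : V.valuation x ≤ V.valuation x ^ (N - i) := by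
    conv_lhs => rw [← pow_one (V.valuation x)]
    exact pow_le_pow_right₀ hx1.le (by omega)
  have h4 : V.valuation (algebraMap E K (p.coeff i)) * V.valuation x ^ i / V.valuation x ^ N =
      V.valuation (algebraMap E K (p.coeff i)) * (V.valuation x ^ (N - i))⁻¹ := by
    rw [h2, mul_div_assoc, div_mul_cancel_left₀ (pow_ne_zero i hv0)]
  rw [h4]
  refine (mul_le_of_le_one_left' (val_base hb _)).trans ?_
  exact inv_anti₀ (zero_lt_iff.2 hv0) h3

private theorem inv_lt {V : ValuationSubring K} {x : K} (hx : x ∉ V) : (V.valuation x)⁻¹ < 1 :=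
  inv_lt_one_of_one_lt₀ (val_ne hx)

theorem val_le_pow {V : ValuationSubring K} (hb : ∀ e : E, algebraMap E K e ∈ V) {x : K} (hx : x ∉ V)
    {p : E[X]} {N : ℕ} (hp : p.natDegree ≤ N) :
    V.valuation (aeval x p) ≤ V.valuation x ^ N := by
  have hx0 : x ≠ 0 := by
    rintro rfl
    exact hx V.zero_mem
  have h1 := (val_top hb hx hp).trans (inv_lt hx).le
  have h2 : V.valuation (aeval x p / x ^ N) ≤ 1 := by
    have h3 : aeval x p / x ^ N = (aeval x p / x ^ N - algebraMap E K (p.coeff N)) +
        algebraMap E K (p.coeff N) := by ring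
    rw [h3]
    exact (Valuation.map_add _ _ _).trans (max_le h1 (val_base hb _))
  have h4 : aeval x p = aeval x p / x ^ N * x ^ N := (div_mul_cancel₀ _ (pow_ne_zero N hx0)).symm
  rw [h4, map_mul, map_pow]
  exact mul_le_of_le_one_left' h2

theorem val_deg {V : ValuationSubring K} (hb : ∀ e : E, algebraMap E K e ∈ V) {x : K} (hx : x ∉ V)
    {p : E[X]} (hp : p ≠ 0) : V.valuation (aeval x p) = V.valuation x ^ p.natDegree := by
  have hx0 : x ≠ 0 := by
    rintro rfl
    exact hx V.zero_mem
  have h1 := (val_top hb hx (le_refl p.natDegree)).trans_lt (inv_lt hx)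
  have h5 : V.valuation (algebraMap E K (p.coeff p.natDegree)) = 1 :=
    val_const hb (by rw [coeff_natDegree]; exact leadingCoeff_ne_zero.2 hp)
  have h2 : V.valuation (aeval x p / x ^ p.natDegree) = 1 := by
    have h3 : aeval x p / x ^ p.natDegree =
        (aeval x p / x ^ p.natDegree - algebraMap E K (p.coeff p.natDegree)) +
        algebraMap E K (p.coeff p.natDegree) := by ring
    rw [h3, Valuation.map_add_eq_of_lt_right _ (by rw [h5]; exact h1), h5]
  have h4 : aeval x p = aeval x p / x ^ p.natDegree * x ^ p.natDegree :=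
    (div_mul_cancel₀ _ (pow_ne_zero _ hx0)).symm
  rw [h4, map_mul, map_pow, h2, one_mul]

theorem lin_dep {x : K} {ι : Type} [Fintype ι] (y : ι → K) (h : ¬ LinearIndependent E⟮x⟯ y) :
    ∃ (p : ι → E[X]) (N : ℕ), (∀ i, (p i).natDegree ≤ N) ∧ (∃ i, (p i).coeff N ≠ 0) ∧
      ∑ i, aeval x (p i) * y i = 0 := by
  classical
  obtain ⟨a, ha, i₁, hi₁⟩ := Fintype.not_linearIndependent_iff.1 h
  have hrs : ∀ i, ∃ r s : E[X], aeval x s ≠ 0 ∧ (a i : K) = aeval x r / aeval x s := by
    intro i
    obtain ⟨r, s, hr⟩ := (mem_adjoin_simple_iff E (a i : K)).1 (a i).2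
    by_cases hs : aeval x s = 0
    · refine ⟨0, 1, ?_, ?_⟩
      · rw [map_one]
        exact one_ne_zero
      · rw [hr, hs, div_zero, map_zero, zero_div]
    · exact ⟨r, s, hs, hr⟩
  choose r t ht hrt using hrs
  set p : ι → E[X] := fun i => r i * ∏ j ∈ Finset.univ.erase i, t j with hp
  have hS : (∏ j, aeval x (t j)) ≠ 0 := Finset.prod_ne_zero_iff.2 fun j _ => ht j
  have hpa : ∀ i, aeval x (p i) = (∏ j, aeval x (t j)) * (a i : K) := by
    intro i
    rw [hp]
    simp only
    rw [map_mul, map_prod, ← Finset.mul_prod_erase Finset.univ _ (Finset.mem_univ i), hrt i]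
    have := ht i
    field_simp
  have hp1 : p i₁ ≠ 0 := by
    intro h0
    have h1 := hpa i₁
    rw [h0, map_zero] at h1
    have h2 : (a i₁ : K) ≠ 0 := by
      intro h3
      exact hi₁ (Subtype.ext h3)
    exact mul_ne_zero hS h2 h1.symm
  obtain ⟨i₀, hi₀, hmax⟩ := Finset.exists_max_image (Finset.univ.filter fun i => p i ≠ 0)
    (fun i => (p i).natDegree) ⟨i₁, by simpa using hp1⟩
  have hi₀' : p i₀ ≠ 0 := (Finset.mem_filter.1 hi₀).2
  refine ⟨p, (p i₀).natDegree, fun i => ?_, ⟨i₀, ?_⟩, ?_⟩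
  · by_cases hi : p i = 0
    · rw [hi, natDegree_zero]
      exact Nat.zero_le _
    · exact hmax i (Finset.mem_filter.2 ⟨Finset.mem_univ _, hi⟩)
  · rw [coeff_natDegree]
    exact leadingCoeff_ne_zero.2 hi₀'
  · have h1 : ∑ i, aeval x (p i) * y i = (∏ j, aeval x (t j)) * ∑ i, a i • y i := by
      rw [Finset.mul_sum]
      refine Finset.sum_congr rfl fun i _ => ?_
      rw [hpa i]
      show _ = (∏ j, aeval x (t j)) * ((a i : K) * y i)
      ring
    rw [h1, ha, mul_zero]

end Pool.Agent.H13.RI
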