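import Pool.Agent.H13.RI.A

/-!
# [H13 RI B] The valuation has rank one

`K` is algebraic over `E(x)`. For `z ∈ K` the powers `z ^ i`, `i ≤ n = [K : E(x)]`, are dependent over `E(x)`: `lin_dep` with
`ι = Fin (n + 1)`, `y i = z ^ i`: polynomials `p_i` of degree `≤ N` with `∑ p_i(x) z ^ i = 0`, not all `a_i = p_i.coeff N` zero.
* `rank_one`: `v z < 1`: divide by `x ^ N`: `v (∑ a_i z ^ i) ≤ v x⁻¹` (`val_top`, `v (z ^ i) ≤ 1`). `b = ∑ a_i X ^ i ≠ 0`,
  `v (b(z)) = v z ^ j` (`val_trail`). So `v z ^ j ≤ v x⁻¹`, and the `k`-th power.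
* `val_le`: let `n₀` be the largest `i` with `p_i ≠ 0`. If `v z > v x ^ N` (`≥ 1`), then `n₀ ≥ 1` (`p_0(x) ≠ 0` if `p_0 ≠ 0`,
  `val_deg`), `v (p_(n₀)(x) z ^ n₀) ≥ v z ^ n₀` and the other terms have value `≤ v x ^ N v z ^ i < v z ^ (i + 1) ≤ v z ^ n₀`
  (`val_le_pow`): the sum is not zero (`Valuation.map_sum_lt`..), contradiction.
-/

set_option autoImplicit false

open Polynomial IntermediateField

namespace Pool.Agent.H13.RI

variable {E K : Type} [Field E] [Field K] [Algebra E K]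

private theorem val_ne {V : ValuationSubring K} {x : K} (hx : x ∉ V) : 1 < V.valuation x := by
  rw [← not_le, V.valuation_le_one_iff]
  exact hx

private theorem pow_dep {x : K} (hfin : FiniteDimensional E⟮x⟯ K) (z : K) :
    ∃ (n : ℕ) (p : Fin n → E[X]) (N : ℕ), (∀ i, (p i).natDegree ≤ N) ∧
      (∃ i, (p i).coeff N ≠ 0) ∧ ∑ i, aeval x (p i) * z ^ (i : ℕ) = 0 := by
  have h : ¬ LinearIndependent E⟮x⟯ (fun i : Fin (Module.finrank E⟮x⟯ K + 1) => z ^ (i : ℕ)) := by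
    intro h
    have h1 := h.fintype_card_le_finrank
    rw [Fintype.card_fin] at h1
    omega
  obtain ⟨p, N, h1, h2, h3⟩ := lin_dep _ h
  exact ⟨_, p, N, h1, h2, h3⟩

private theorem rank_aux {x : K} (hfin : FiniteDimensional E⟮x⟯ K) {V : ValuationSubring K}
    (hb : ∀ e : E, algebraMap E K e ∈ V) (hx : x ∉ V) {z : K} (hz : V.valuation z < 1) :
    ∃ j : ℕ, V.valuation z ^ j ≤ (V.valuation x)⁻¹ := by
  obtain ⟨n, p, N, h1, ⟨i₀, hi₀⟩, h3⟩ := pow_dep hfin z
  have hx0 : x ≠ 0 := by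
    rintro rfl
    exact hx V.zero_mem
  set b : E[X] := ∑ i, C ((p i).coeff N) * X ^ (i : ℕ) with hbd
  have hb0 : b ≠ 0 := by
    intro h0
    have h4 : b.coeff (i₀ : ℕ) = (p i₀).coeff N := by
      rw [hbd, finsetSum_coeff, Finset.sum_eq_single i₀]
      · rw [coeff_C_mul, coeff_X_pow, if_pos rfl, mul_one]
      · intro i _ hi
        rw [coeff_C_mul, coeff_X_pow, if_neg, mul_zero]
        intro h5
        exact hi (Fin.ext h5.symm)
      · intro h5
        exact absurd (Finset.mem_univ i₀) h5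
    rw [h0, coeff_zero] at h4
    exact hi₀ h4.symm
  have h4 : aeval z b = - ∑ i, (aeval x (p i) / x ^ N - algebraMap E K ((p i).coeff N)) *
      z ^ (i : ℕ) := by
    have h5 : aeval z b = ∑ i, algebraMap E K ((p i).coeff N) * z ^ (i : ℕ) := by
      rw [hbd, map_sum]
      refine Finset.sum_congr rfl fun i _ => ?_
      rw [map_mul, aeval_C, map_pow, aeval_X]
    have h6 : ∑ i, (aeval x (p i) / x ^ N) * z ^ (i : ℕ) = 0 := by
      have h7 : ∑ i, (aeval x (p i) / x ^ N) * z ^ (i : ℕ) =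
          (∑ i, aeval x (p i) * z ^ (i : ℕ)) / x ^ N := by
        rw [Finset.sum_div]
        exact Finset.sum_congr rfl fun i _ => by ring
      rw [h7, h3, zero_div]
    have h8 : ∑ i, (aeval x (p i) / x ^ N - algebraMap E K ((p i).coeff N)) * z ^ (i : ℕ) =
        ∑ i, (aeval x (p i) / x ^ N) * z ^ (i : ℕ) -
          ∑ i, algebraMap E K ((p i).coeff N) * z ^ (i : ℕ) := by
      rw [← Finset.sum_sub_distrib]
      exact Finset.sum_congr rfl fun i _ => by ring
    rw [h8, h6, h5]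
    ring
  have h5 : V.valuation (aeval z b) ≤ (V.valuation x)⁻¹ := by
    rw [h4, Valuation.map_neg]
    refine Valuation.map_sum_le _ fun i _ => ?_
    rw [map_mul, map_pow]
    exact (mul_le_of_le_one_right' (pow_le_one' hz.le _)).trans (val_top hb hx (h1 i))
  rw [val_trail hb hz hb0] at h5
  exact ⟨_, h5⟩

theorem rank_one {x : K} (hfin : FiniteDimensional E⟮x⟯ K) {V : ValuationSubring K}
    (hb : ∀ e : E, algebraMap E K e ∈ V) (hx : x ∉ V) {z : K} (hz : V.valuation z < 1) (k : ℕ) :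
    ∃ j : ℕ, ∀ i ≥ j, V.valuation z ^ i * V.valuation x ^ k ≤ 1 := by
  obtain ⟨j, hj⟩ := rank_aux hfin hb hx hz
  have hx0 : x ≠ 0 := by
    rintro rfl
    exact hx V.zero_mem
  have hv0 : V.valuation x ≠ 0 := (Valuation.ne_zero_iff _).2 hx0
  refine ⟨j * k, fun i hi => ?_⟩
  have h1 : V.valuation z ^ i ≤ V.valuation z ^ (j * k) := pow_le_pow_right_of_le_one' hz.le hi
  have h2 : V.valuation z ^ (j * k) ≤ (V.valuation x)⁻¹ ^ k := by
    rw [pow_mul]
    exact pow_le_pow_left' hj k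
  calc V.valuation z ^ i * V.valuation x ^ k ≤ (V.valuation x)⁻¹ ^ k * V.valuation x ^ k :=
        mul_le_mul_left (h1.trans h2) _
    _ = 1 := by rw [← mul_pow, inv_mul_cancel₀ hv0, one_pow]

theorem val_le {x : K} (hfin : FiniteDimensional E⟮x⟯ K) {V : ValuationSubring K}
    (hb : ∀ e : E, algebraMap E K e ∈ V) (hx : x ∉ V) (z : K) :
    ∃ k : ℕ, V.valuation z ≤ V.valuation x ^ k := by
  classical
  obtain ⟨n, p, N, h1, ⟨i₁, hi₁⟩, h3⟩ := pow_dep hfin z
  refine ⟨N, ?_⟩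
  by_contra hno
  rw [not_le] at hno
  have hx1 := val_ne hx
  have hz1 : 1 ≤ V.valuation z := (one_le_pow_of_one_le' hx1.le N).trans hno.le
  have hz0 : V.valuation z ≠ 0 := by
    intro h
    rw [h] at hz1
    exact absurd hz1 (not_le.2 zero_lt_one)
  have hpi : p i₁ ≠ 0 := by
    intro h
    rw [h, coeff_zero] at hi₁
    exact hi₁ rfl
  obtain ⟨i₀, hi₀, hmax⟩ := Finset.exists_max_image (Finset.univ.filter fun i => p i ≠ 0)
    (fun i : Fin n => (i : ℕ)) ⟨i₁, by simpa using hpi⟩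
  have hi₀' : p i₀ ≠ 0 := (Finset.mem_filter.1 hi₀).2
  have h4 : V.valuation z ^ (i₀ : ℕ) ≤ V.valuation (aeval x (p i₀) * z ^ (i₀ : ℕ)) := by
    rw [map_mul, map_pow, val_deg hb hx hi₀']
    exact le_mul_of_one_le_left' (one_le_pow_of_one_le' hx1.le _)
  have h5 : V.valuation (∑ i ∈ Finset.univ.erase i₀, aeval x (p i) * z ^ (i : ℕ)) <
      V.valuation z ^ (i₀ : ℕ) := by
    refine Valuation.map_sum_lt _ (pow_ne_zero _ hz0) fun i hi => ?_
    by_cases hpi' : p i = 0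
    · rw [hpi', map_zero, zero_mul, map_zero]
      exact zero_lt_iff.2 (pow_ne_zero _ hz0)
    have h6 : (i : ℕ) ≤ (i₀ : ℕ) := hmax i (Finset.mem_filter.2 ⟨Finset.mem_univ _, hpi'⟩)
    have h7 : (i : ℕ) ≠ (i₀ : ℕ) := fun h => (Finset.mem_erase.1 hi).1 (Fin.ext h)
    rw [map_mul, map_pow]
    calc V.valuation (aeval x (p i)) * V.valuation z ^ (i : ℕ)
        ≤ V.valuation x ^ N * V.valuation z ^ (i : ℕ) :=
          mul_le_mul_left (val_le_pow hb hx (h1 i)) _
      _ < V.valuation z * V.valuation z ^ (i : ℕ) :=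
          mul_lt_mul_of_pos_right hno (zero_lt_iff.2 (pow_ne_zero _ hz0))
      _ = V.valuation z ^ ((i : ℕ) + 1) := (pow_succ' _ _).symm
      _ ≤ V.valuation z ^ (i₀ : ℕ) := pow_le_pow_right₀ hz1 (by omega)
  have h6 : aeval x (p i₀) * z ^ (i₀ : ℕ) =
      -(∑ i ∈ Finset.univ.erase i₀, aeval x (p i) * z ^ (i : ℕ)) := by
    rw [← Finset.add_sum_erase Finset.univ _ (Finset.mem_univ i₀)] at h3
    exact eq_neg_of_add_eq_zero_left h3
  have h7 := congrArg V.valuation h6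
  rw [Valuation.map_neg] at h7
  rw [h7] at h4
  exact absurd (h4.trans_lt h5) (lt_irrefl _)

end Pool.Agent.H13.RI
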