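import Pool.Agent.H13.RI.B

/-!
# [H13 RI C] Two places at infinity: separation

* `sep`: if `V0 ⊆ V1`, `w ∈ V1`, `w ∉ V0`, then `z = w⁻¹` has `v0 z < 1`; `rank_one` for `V0`, `k = 1`: `z ^ M x ∈ V0 ⊆ V1`, so
  `x = w ^ M (z ^ M x) ∈ V1`: excluded. So no inclusion: `a ∈ V0`, `a ∉ V1`, `b ∈ V1`, `b ∉ V0`; `c = b / a`.
* `idem`: `c` as in `sep`, `e = c ^ M / (1 + c ^ M) = 1 - 1 / (1 + c ^ M)`, `M ≥ 1` large. In `V1`: `v1 (1 + c ^ M) = 1`,
  `v1 (e y_i) = v1 (c ^ M y_i) ≤ v1 c ^ M v1 x ^ (k_i)` (`val_le`), and `v1 c ^ M v1 x ^ (k_i + 1) ≤ 1` for large `M` (`rank_one`).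
  In `V0`: `v0 (1 + c ^ M) = v0 c ^ M`, `v0 (1 - e) = v0 (c⁻¹) ^ M ≤ v0 x⁻¹` for large `M` (`rank_one` for `z = c⁻¹`).
-/

set_option autoImplicit false

open Polynomial IntermediateField

namespace Pool.Agent.H13.RI

variable {E K : Type} [Field E] [Field K] [Algebra E K]

private theorem val_gt {V : ValuationSubring K} {x : K} (hx : x ∉ V) : 1 < V.valuation x := by
  rw [← not_le, V.valuation_le_one_iff]
  exact hx

private theorem not_le' {x : K} (hfin : FiniteDimensional E⟮x⟯ K) {V0 V1 : ValuationSubring K}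
    (hb0 : ∀ e : E, algebraMap E K e ∈ V0) (hx0 : x ∉ V0) (hx1 : x ∉ V1) (hne : V0 ≠ V1) :
    ∃ a, a ∈ V0 ∧ a ∉ V1 := by
  by_contra hno
  push Not at hno
  have h1 : ∃ w, w ∈ V1 ∧ w ∉ V0 := by
    by_contra hno'
    push Not at hno'
    exact hne (SetLike.ext fun w => ⟨hno w, hno' w⟩)
  obtain ⟨w, hw1, hw0⟩ := h1
  have hw : w ≠ 0 := by
    rintro rfl
    exact hw0 V0.zero_mem
  have hz : V0.valuation w⁻¹ < 1 := by
    rw [map_inv₀]
    exact inv_lt_one_of_one_lt₀ (val_gt hw0)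
  obtain ⟨j, hj⟩ := rank_one hfin hb0 hx0 hz 1
  have h2 := hj j le_rfl
  rw [pow_one, ← map_pow, ← map_mul, V0.valuation_le_one_iff] at h2
  have h3 := V1.mul_mem _ _ (pow_mem hw1 j) (hno _ h2)
  have h4 : w ^ j * (w⁻¹ ^ j * x) = x := by
    rw [← mul_assoc, ← mul_pow, mul_inv_cancel₀ hw, one_pow, one_mul]
  rw [h4] at h3
  exact hx1 h3

theorem sep {x : K} (hfin : FiniteDimensional E⟮x⟯ K) {V0 V1 : ValuationSubring K}
    (hb0 : ∀ e : E, algebraMap E K e ∈ V0) (hx0 : x ∉ V0) (hb1 : ∀ e : E, algebraMap E K e ∈ V1)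
    (hx1 : x ∉ V1) (hne : V0 ≠ V1) : ∃ c : K, 1 < V0.valuation c ∧ V1.valuation c < 1 := by
  obtain ⟨a, ha0, ha1⟩ := not_le' hfin hb0 hx0 hx1 hne
  obtain ⟨b, hb1', hb0'⟩ := not_le' hfin hb1 hx1 hx0 hne.symm
  have ha : a ≠ 0 := by
    rintro rfl
    exact ha1 V1.zero_mem
  have h1 : V0.valuation a ≤ 1 := (V0.valuation_le_one_iff a).2 ha0
  have h2 : 1 < V1.valuation a := val_gt ha1
  have h3 : V1.valuation b ≤ 1 := (V1.valuation_le_one_iff b).2 hb1'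
  have h4 : 1 < V0.valuation b := val_gt hb0'
  have h5 : V0.valuation a ≠ 0 := (Valuation.ne_zero_iff _).2 ha
  have h6 : V1.valuation a ≠ 0 := (Valuation.ne_zero_iff _).2 ha
  refine ⟨b / a, ?_, ?_⟩
  · rw [map_div₀, one_lt_div₀ (zero_lt_iff.2 h5)]
    exact h1.trans_lt h4
  · rw [map_div₀, div_lt_one₀ (zero_lt_iff.2 h6)]
    exact h3.trans_lt h2

theorem idem {x : K} (hfin : FiniteDimensional E⟮x⟯ K) {V0 V1 : ValuationSubring K}
    (hb0 : ∀ e : E, algebraMap E K e ∈ V0) (hx0 : x ∉ V0) (hb1 : ∀ e : E, algebraMap E K e ∈ V1)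
    (hx1 : x ∉ V1) (hne : V0 ≠ V1) {r : ℕ} (y : Fin r → K) :
    ∃ e : K, V0.valuation (1 - e) ≤ (V0.valuation x)⁻¹ ∧ V1.valuation (1 - e) = 1 ∧
      ∀ i, V1.valuation (e * y i) ≤ (V1.valuation x)⁻¹ := by
  obtain ⟨c, hc0, hc1⟩ := sep hfin hb0 hx0 hb1 hx1 hne
  have hc : c ≠ 0 := by
    rintro rfl
    rw [map_zero] at hc0
    exact absurd hc0 (not_lt.2 zero_le_one)
  have hz : V0.valuation c⁻¹ < 1 := by
    rw [map_inv₀]
    exact inv_lt_one_of_one_lt₀ hc0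
  obtain ⟨j0, hj0⟩ := rank_one hfin hb0 hx0 hz 1
  have hk : ∀ i, ∃ k : ℕ, V1.valuation (y i) ≤ V1.valuation x ^ k := fun i =>
    val_le hfin hb1 hx1 (y i)
  choose k hk using hk
  have hj : ∀ i, ∃ j : ℕ, ∀ M ≥ j, V1.valuation c ^ M * V1.valuation x ^ (k i + 1) ≤ 1 := fun i =>
    rank_one hfin hb1 hx1 hc1 (k i + 1)
  choose j hj using hj
  set M : ℕ := j0 + 1 + ∑ i, j i with hM
  have hM1 : M ≠ 0 := by omega
  have hMj : ∀ i, j i ≤ M := by
    intro i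
    have := Finset.single_le_sum (f := j) (fun _ _ => Nat.zero_le _) (Finset.mem_univ i)
    omega
  have hxx0 : V0.valuation x ≠ 0 := by
    intro h
    have := val_gt hx0
    rw [h] at this
    exact absurd this (not_lt.2 zero_le_one)
  have hxx1 : V1.valuation x ≠ 0 := by
    intro h
    have := val_gt hx1
    rw [h] at this
    exact absurd this (not_lt.2 zero_le_one)
  have h1 : V1.valuation (1 + c ^ M) = 1 := by
    rw [Valuation.map_add_eq_of_lt_left _ (by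
      rw [map_one, map_pow]
      exact pow_lt_one₀ zero_le hc1 hM1), map_one]
  have h0 : V0.valuation (1 + c ^ M) = V0.valuation c ^ M := by
    rw [Valuation.map_add_eq_of_lt_right _ (by
      rw [map_one, map_pow]
      exact one_lt_pow₀ hc0 hM1), map_pow]
  have hne0 : 1 + c ^ M ≠ 0 := by
    intro h
    rw [h, map_zero] at h1
    exact zero_ne_one h1
  have he : 1 - c ^ M / (1 + c ^ M) = (1 + c ^ M)⁻¹ := by
    field_simp
    ring
  refine ⟨c ^ M / (1 + c ^ M), ?_, ?_, fun i => ?_⟩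
  · rw [he, map_inv₀, h0]
    have h2 := hj0 M (by omega)
    rw [pow_one, map_inv₀, inv_pow] at h2
    rw [← one_div (V0.valuation x), le_div_iff₀ (zero_lt_iff.2 hxx0)]
    exact h2
  · rw [he, map_inv₀, h1, inv_one]
  · rw [map_mul, map_div₀, h1, div_one, map_pow, ← one_div (V1.valuation x),
      le_div_iff₀ (zero_lt_iff.2 hxx1)]
    refine le_trans ?_ (hj i M (hMj i))
    rw [pow_succ, ← mul_assoc]
    exact mul_le_mul_left (mul_le_mul_right (hk i) _) _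

end Pool.Agent.H13.RI
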