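import Pool.Agent.H13.RI.C

/-!
# [H13 RI D] The residue field is small if there are two places at infinity

`e` as in `idem` for `y = z`. Claim: the `r + 1` elements `1 - e`, `e z_i` (`Fin.cons`, or `Option (Fin r)`) are linearly
independent over `E(x)`. Otherwise `lin_dep`: polynomials `p_0, p_i` of degree `≤ N`, `a = ` coefficients of `X ^ N`, not all
zero, `p_0(x) (1 - e) + ∑ p_i(x) e z_i = 0`; divide by `x ^ N`. In `V0`: `v0 (p_i(x)/x ^ N - a_i) ≤ v0 x⁻¹` (`val_top`),
`v0 (1 - e) ≤ v0 x⁻¹`, `v0 e ≤ 1`, `v0 z_i ≤ 1`: `v0 (∑ a_i z_i) ≤ v0 x⁻¹`, so `a_i = 0` for `i = 1..r` by `hi`. So `a_0 ≠ 0`, and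
in `V1`: `v1 (p_0(x)/x ^ N) = 1` (`val_top`, `v1 x⁻¹ < 1`), `v1 (1 - e) = 1`, but
`v1 (p_i(x)/x ^ N * (e z_i)) ≤ v1 x⁻¹ < 1`: contradiction. (`LinearIndependent.fintype_card_le_finrank`.)
-/

set_option autoImplicit false

open Polynomial IntermediateField

namespace Pool.Agent.H13.RI

variable {E K : Type} [Field E] [Field K] [Algebra E K]

private theorem val_gt {V : ValuationSubring K} {x : K} (hx : x ∉ V) : 1 < V.valuation x := by
  rw [← not_le, V.valuation_le_one_iff]
  exact hx

private theorem quo_le {V : ValuationSubring K} (hb : ∀ e : E, algebraMap E K e ∈ V) {x : K}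
    (hx : x ∉ V) {p : E[X]} {N : ℕ} (hp : p.natDegree ≤ N) :
    V.valuation (aeval x p / x ^ N) ≤ 1 := by
  have h1 := val_gt hx
  have h0 : V.valuation x ≠ 0 := by
    intro h
    rw [h] at h1
    exact absurd h1 (not_lt.2 zero_le_one)
  rw [map_div₀, map_pow, div_le_one₀ (zero_lt_iff.2 (pow_ne_zero N h0))]
  exact val_le_pow hb hx hp

private theorem indep {x : K} (hfin : FiniteDimensional E⟮x⟯ K) {V0 V1 : ValuationSubring K}
    (hb0 : ∀ e : E, algebraMap E K e ∈ V0) (hx0 : x ∉ V0) (hb1 : ∀ e : E, algebraMap E K e ∈ V1)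
    (hx1 : x ∉ V1) {r : ℕ} (z : Fin r → K) (hz : ∀ i, V0.valuation (z i) ≤ 1)
    (hi : ∀ c : Fin r → E, V0.valuation (∑ i, c i • z i) ≤ (V0.valuation x)⁻¹ → c = 0) {e : K}
    (he0 : V0.valuation (1 - e) ≤ (V0.valuation x)⁻¹) (he1 : V1.valuation (1 - e) = 1)
    (he2 : ∀ i, V1.valuation (e * z i) ≤ (V1.valuation x)⁻¹) :
    LinearIndependent E⟮x⟯ (fun i : Option (Fin r) => i.elim (1 - e) (fun j => e * z j)) := by
  by_contra hli
  obtain ⟨p, N, hN, ⟨i₀, hi₀⟩, hsum⟩ := lin_dep _ hli
  rw [Fintype.sum_option] at hsum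
  replace hsum : aeval x (p none) * (1 - e) + ∑ i, aeval x (p (some i)) * (e * z i) = 0 := hsum
  have hinv0 : (V0.valuation x)⁻¹ < 1 := inv_lt_one_of_one_lt₀ (val_gt hx0)
  have hinv1 : (V1.valuation x)⁻¹ < 1 := inv_lt_one_of_one_lt₀ (val_gt hx1)
  have hq : aeval x (p none) / x ^ N * (1 - e) +
      ∑ i, aeval x (p (some i)) / x ^ N * (e * z i) = 0 := by
    have h1 : aeval x (p none) / x ^ N * (1 - e) +
        ∑ i, aeval x (p (some i)) / x ^ N * (e * z i) =
        (aeval x (p none) * (1 - e) + ∑ i, aeval x (p (some i)) * (e * z i)) / x ^ N := by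
      rw [add_div, Finset.sum_div]
      congr 1
      · ring
      · exact Finset.sum_congr rfl fun i _ => by ring
    rw [h1, hsum, zero_div]
  have hev : V0.valuation e ≤ 1 := by
    have h1 : e = 1 - (1 - e) := by ring
    rw [h1]
    exact Valuation.map_sub_le _ (by rw [map_one]) (he0.trans hinv0.le)
  have h0 : V0.valuation (∑ i, (p (some i)).coeff N • z i) ≤ (V0.valuation x)⁻¹ := by
    have h1 : ∑ i, (p (some i)).coeff N • z i = -(aeval x (p none) / x ^ N * (1 - e)) +
        ∑ i, (algebraMap E K ((p (some i)).coeff N) * (1 - e) * z i -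
          (aeval x (p (some i)) / x ^ N - algebraMap E K ((p (some i)).coeff N)) * e * z i) := by
      have h2 : -(aeval x (p none) / x ^ N * (1 - e)) =
          ∑ i, aeval x (p (some i)) / x ^ N * (e * z i) := by
        linear_combination -hq
      rw [h2, ← Finset.sum_add_distrib]
      refine Finset.sum_congr rfl fun i _ => ?_
      rw [Algebra.smul_def]
      ring
    rw [h1]
    refine (Valuation.map_add _ _ _).trans (max_le ?_ ?_)
    · rw [Valuation.map_neg, map_mul]
      exact (mul_le_of_le_one_left' (quo_le hb0 hx0 (hN none))).trans he0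
    · refine Valuation.map_sum_le _ fun i _ => ?_
      refine Valuation.map_sub_le _ ?_ ?_
      · rw [map_mul, map_mul]
        have h3 : V0.valuation (algebraMap E K ((p (some i)).coeff N)) ≤ 1 :=
          (V0.valuation_le_one_iff _).2 (hb0 _)
        calc _ ≤ V0.valuation (algebraMap E K ((p (some i)).coeff N)) * V0.valuation (1 - e) :=
              mul_le_of_le_one_right' (hz i)
          _ ≤ V0.valuation (1 - e) := mul_le_of_le_one_left' h3
          _ ≤ _ := he0
      · rw [map_mul, map_mul]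
        calc _ ≤ V0.valuation (aeval x (p (some i)) / x ^ N -
              algebraMap E K ((p (some i)).coeff N)) * V0.valuation e :=
              mul_le_of_le_one_right' (hz i)
          _ ≤ V0.valuation (aeval x (p (some i)) / x ^ N -
              algebraMap E K ((p (some i)).coeff N)) := mul_le_of_le_one_right' hev
          _ ≤ _ := val_top hb0 hx0 (hN _)
  have hc := hi (fun i => (p (some i)).coeff N) h0
  have ha0 : (p none).coeff N ≠ 0 := by
    cases i₀ with
    | none => exact hi₀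
    | some i => exact absurd (congrFun hc i) hi₀
  have h1 : V1.valuation (aeval x (p none) / x ^ N) = 1 := by
    have h2 : aeval x (p none) / x ^ N =
        (aeval x (p none) / x ^ N - algebraMap E K ((p none).coeff N)) +
        algebraMap E K ((p none).coeff N) := by ring
    have h3 := val_const hb1 ha0
    rw [h2, Valuation.map_add_eq_of_lt_right _ (by
      rw [h3]
      exact (val_top hb1 hx1 (hN none)).trans_lt hinv1), h3]
  have h2 : aeval x (p none) / x ^ N * (1 - e) =
      -∑ i, aeval x (p (some i)) / x ^ N * (e * z i) := eq_neg_of_add_eq_zero_left hq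
  have h3 := congrArg V1.valuation h2
  rw [map_mul, h1, he1, one_mul, Valuation.map_neg] at h3
  have h4 : V1.valuation (∑ i, aeval x (p (some i)) / x ^ N * (e * z i)) ≤
      (V1.valuation x)⁻¹ := by
    refine Valuation.map_sum_le _ fun i _ => ?_
    rw [map_mul]
    exact (mul_le_of_le_one_left' (quo_le hb1 hx1 (hN _))).trans (he2 i)
  rw [← h3] at h4
  exact absurd h4 (not_le.2 hinv1)

theorem res_le {x : K} (hfin : FiniteDimensional E⟮x⟯ K) {V0 V1 : ValuationSubring K}
    (hb0 : ∀ e : E, algebraMap E K e ∈ V0) (hx0 : x ∉ V0) (hb1 : ∀ e : E, algebraMap E K e ∈ V1)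
    (hx1 : x ∉ V1) (hne : V0 ≠ V1) {r : ℕ} (z : Fin r → K) (hz : ∀ i, V0.valuation (z i) ≤ 1)
    (hi : ∀ c : Fin r → E, V0.valuation (∑ i, c i • z i) ≤ (V0.valuation x)⁻¹ → c = 0) :
    r + 1 ≤ Module.finrank E⟮x⟯ K := by
  obtain ⟨e, he0, he1, he2⟩ := idem hfin hb0 hx0 hb1 hx1 hne z
  have h := (indep hfin hb0 hx0 hb1 hx1 z hz hi he0 he1 he2).fintype_card_le_finrank
  rw [Fintype.card_option, Fintype.card_fin] at h
  exact h

end Pool.Agent.H13.RI
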