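import Pool.Agent.H13.RI.D

/-!
# [H13 RI F] Dimension count

`U i = {w : v0 w ≤ v0 x ^ i}`, a subspace over `E`. `step`: a family `w_1, .., w_r` of `W ⊓ U (i + 1)` whose classes form a basis
of the quotient by (the image of) `W ⊓ U i`; `z_j = w_j / x ^ (i + 1)` has `v0 z_j ≤ 1`, and `v0 (∑ c_j z_j) ≤ v0 x⁻¹` means
`∑ c_j w_j ∈ U i`, so `c = 0`: `r ≤ m - 1` by `res_le`. `dim_le`: induction on `s`.
-/

set_option autoImplicit false

open Polynomial IntermediateField

namespace Pool.Agent.H13.RI

variable {E K : Type} [Field E] [Field K] [Algebra E K]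

/-- the functions with a pole of order at most `i` at `V` (compared with `x`) -/
def UU (E : Type) [Field E] [Algebra E K] (V : ValuationSubring K) (hb : ∀ e : E, algebraMap E K e ∈ V) (x : K)
    (i : ℕ) : Submodule E K where
  carrier := {w | V.valuation w ≤ V.valuation x ^ i}
  zero_mem' := by simp
  add_mem' := by
    intro a b h1 h2
    change V.valuation a ≤ _ at h1
    change V.valuation b ≤ _ at h2
    exact (Valuation.map_add _ a b).trans (max_le h1 h2)
  smul_mem' := by
    intro c a ha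
    change V.valuation a ≤ _ at ha
    change V.valuation (c • a) ≤ _
    rw [Algebra.smul_def, map_mul]
    have h1 : V.valuation (algebraMap E K c) ≤ 1 := (V.valuation_le_one_iff _).2 (hb c)
    calc _ ≤ 1 * V.valuation a := mul_le_mul_left h1 _
      _ ≤ _ := by rw [one_mul]; exact ha

theorem step {x : K} (hfin : FiniteDimensional E⟮x⟯ K) {V0 V1 : ValuationSubring K}
    (hb0 : ∀ e : E, algebraMap E K e ∈ V0) (hx0 : x ∉ V0) (hb1 : ∀ e : E, algebraMap E K e ∈ V1)
    (hx1 : x ∉ V1) (hne : V0 ≠ V1) (W : Submodule E K) [FiniteDimensional E W] (i : ℕ) :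
    Module.finrank E (W ⊓ UU E V0 hb0 x (i + 1) : Submodule E K) + 1 ≤
      Module.finrank E (W ⊓ UU E V0 hb0 x i : Submodule E K) + Module.finrank E⟮x⟯ K := by
  classical
  have hx1' : 1 < V0.valuation x := by
    rw [← not_le, V0.valuation_le_one_iff]
    exact hx0
  have hx0' : V0.valuation x ≠ 0 := (lt_trans zero_lt_one hx1').ne'
  have hxne : x ≠ 0 := by
    rintro rfl
    rw [map_zero] at hx0'
    exact hx0' rfl
  obtain ⟨S1, hS1⟩ : ∃ S1, S1 = (W ⊓ UU E V0 hb0 x (i + 1) : Submodule E K) := ⟨_, rfl⟩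
  obtain ⟨S0, hS0⟩ : ∃ S0, S0 = (W ⊓ UU E V0 hb0 x i : Submodule E K) := ⟨_, rfl⟩
  have hle : S0 ≤ S1 := by
    rw [hS0, hS1]
    refine inf_le_inf_left W ?_
    intro w hw
    change V0.valuation w ≤ _ at hw
    change V0.valuation w ≤ _
    refine hw.trans ?_
    rw [pow_succ]
    exact le_mul_of_one_le_right' hx1'.le
  have hfd : FiniteDimensional E S1 := by
    rw [hS1]
    infer_instance
  have hS1' : ∀ u ∈ S1, u ∈ W ∧ V0.valuation u ≤ V0.valuation x ^ (i + 1) := by
    rw [hS1]
    exact fun u hu => ⟨hu.1, hu.2⟩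
  rw [← hS1, ← hS0]
  have hq := Submodule.finrank_quotient_add_finrank (S0.submoduleOf S1)
  rw [(Submodule.submoduleOfEquivOfLe hle).finrank_eq] at hq
  obtain ⟨r, hr⟩ : ∃ r, r = Module.finrank E (S1 ⧸ S0.submoduleOf S1) := ⟨_, rfl⟩
  let b := Module.finBasisOfFinrankEq E (S1 ⧸ S0.submoduleOf S1) hr.symm
  choose w hw using fun j => Submodule.mkQ_surjective (S0.submoduleOf S1) (b j)
  have hres := res_le hfin hb0 hx0 hb1 hx1 hne (r := r) (fun j => (w j : K) / x ^ (i + 1))
    (by
      intro j
      have h2 : V0.valuation (w j : K) ≤ V0.valuation x ^ (i + 1) := (hS1' _ (w j).2).2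
      show V0.valuation ((w j : K) / x ^ (i + 1)) ≤ 1
      rw [map_div₀, map_pow]
      exact div_le_one_of_le₀ h2 zero_le)
    (by
      intro c hc
      have h1 : (∑ j, c j • ((w j : K) / x ^ (i + 1))) =
          (∑ j, c j • (w j : K)) / x ^ (i + 1) := by
        rw [Finset.sum_div]
        refine Finset.sum_congr rfl fun j _ => ?_
        rw [smul_div_assoc]
      rw [h1, map_div₀, map_pow] at hc
      have h2 : V0.valuation (∑ j, c j • (w j : K)) ≤ V0.valuation x ^ i := by
        rw [div_le_iff₀ (pow_pos (lt_trans zero_lt_one hx1') _), pow_succ', ← mul_assoc,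
          inv_mul_cancel₀ hx0', one_mul] at hc
        exact hc
      have h3 : (∑ j, c j • (w j : K)) = ((∑ j, c j • w j : S1) : K) := by
        rw [Submodule.coe_sum]
        rfl
      have h4 : (∑ j, c j • w j : S1) ∈ S0.submoduleOf S1 := by
        rw [Submodule.submoduleOf, Submodule.mem_comap, Submodule.subtype_apply, hS0]
        refine ⟨?_, ?_⟩
        · exact (hS1' _ (∑ j, c j • w j : S1).2).1
        · rw [h3] at h2
          exact h2
      have h5 : ∑ j, c j • b j = 0 := by
        have h6 := (Submodule.Quotient.mk_eq_zero (S0.submoduleOf S1)).2 h4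
        rw [← Submodule.mkQ_apply, map_sum] at h6
        rw [← h6]
        refine Finset.sum_congr rfl fun j _ => ?_
        rw [map_smul, hw j]
      exact funext (Fintype.linearIndependent_iff.1 b.linearIndependent c h5))
  omega

theorem dim_le {x : K} (hfin : FiniteDimensional E⟮x⟯ K) {V0 V1 : ValuationSubring K}
    (hb0 : ∀ e : E, algebraMap E K e ∈ V0) (hx0 : x ∉ V0) (hb1 : ∀ e : E, algebraMap E K e ∈ V1)
    (hx1 : x ∉ V1) (hne : V0 ≠ V1) (W : Submodule E K) [FiniteDimensional E W] (s : ℕ)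
    (hW : W ≤ UU E V0 hb0 x s) :
    Module.finrank E W + s ≤
      Module.finrank E (W ⊓ UU E V0 hb0 x 0 : Submodule E K) + s * Module.finrank E⟮x⟯ K := by
  have key : ∀ s : ℕ, Module.finrank E (W ⊓ UU E V0 hb0 x s : Submodule E K) + s ≤
      Module.finrank E (W ⊓ UU E V0 hb0 x 0 : Submodule E K) +
        s * Module.finrank E⟮x⟯ K := by
    intro s
    induction s with
    | zero => simp
    | succ s ih =>
      have h1 := step hfin hb0 hx0 hb1 hx1 hne W s
      rw [Nat.succ_mul]
      omega
  have h1 := key s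
  rw [inf_eq_left.2 hW] at h1
  exact h1

end Pool.Agent.H13.RI
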