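import Pool.Agent.H13.RI.F

/-!
# [H13 RI G] The subspaces of polynomials in `x` and `y`

`m = [K : E(x)]`, `y` integral over `E[x]` with `E(x)(y) = K` (primitive element, multiplied by a denominator;
`Field.exists_primitive_element`, characteristic 0; `exists_integral_multiple` for `Algebra.adjoin E {x}` and its fraction
field `E(x)`). The map `Fin m → E[X]_(≤ N) → K`, `(c_j) ↦ ∑ c_j(x) y ^ j` is injective: `1, y, .., y ^ (m - 1)` are
independent over `E(x)` and `x` is transcendental. `W` is its image, of dimension `m (N + 1)`; its elements are integral over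
`E[x]`. Finally `v0 (y ^ j) ≤ v0 x ^ c` for all `j < m` (`val_le`), so `W ≤ U (N + c)`, `c` independent of `N`.
-/

set_option autoImplicit false

open Polynomial IntermediateField

namespace Pool.Agent.H13.RI

variable {E K : Type} [Field E] [Field K] [Algebra E K]

private theorem prim {x : K} [CharZero E] (hfin : FiniteDimensional E⟮x⟯ K) :
    ∃ y : K, IsIntegral (Algebra.adjoin E {x}) y ∧
      LinearIndependent E⟮x⟯ fun j : Fin (Module.finrank E⟮x⟯ K) => y ^ (j : ℕ) := by
  have _ : CharZero E⟮x⟯ := charZero_of_injective_algebraMap (algebraMap E E⟮x⟯).injective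
  obtain ⟨θ, hθ⟩ := Field.exists_primitive_element E⟮x⟯ K
  obtain ⟨a, ha0, ha⟩ : ∃ a : Algebra.adjoin E {x}, a ≠ 0 ∧
      IsIntegral (Algebra.adjoin E {x}) (a • θ) := by
    open IntermediateField.algebraAdjoinAdjoin in
    have h1 : IsAlgebraic (Algebra.adjoin E {x}) θ :=
      (IsFractionRing.isAlgebraic_iff (Algebra.adjoin E {x}) E⟮x⟯ K).2
        (Algebra.IsAlgebraic.isAlgebraic θ)
    obtain ⟨a, ha0, ha⟩ := h1.exists_integral_multiple
    exact ⟨a, ha0, ha⟩
  refine ⟨a • θ, ha, ?_⟩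
  have haE : (a : K) ∈ E⟮x⟯ := algebra_adjoin_le_adjoin E {x} a.2
  have ha1 : (a : K) ≠ 0 := fun h => ha0 (Subtype.ext h)
  have htop : E⟮x⟯⟮a • θ⟯ = ⊤ := by
    rw [eq_top_iff, ← hθ, IntermediateField.adjoin_simple_le_iff]
    have h1 : a • θ ∈ E⟮x⟯⟮a • θ⟯ := IntermediateField.mem_adjoin_simple_self _ _
    have h2 : algebraMap E⟮x⟯ K (⟨a, haE⟩ : E⟮x⟯)⁻¹ ∈ E⟮x⟯⟮a • θ⟯ :=
      IntermediateField.algebraMap_mem _ _
    have h3 : θ = algebraMap E⟮x⟯ K (⟨a, haE⟩ : E⟮x⟯)⁻¹ * (a • θ) := by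
      rw [map_inv₀]
      show θ = (a : K)⁻¹ * ((a : K) * θ)
      rw [inv_mul_cancel_left₀ ha1]
    have h4 := mul_mem h2 h1
    rw [← h3] at h4
    exact h4
  have hdeg := (Field.primitive_element_iff_minpoly_natDegree_eq E⟮x⟯ (a • θ)).1 htop
  rw [← hdeg]
  exact linearIndependent_pow _

private theorem pow_ind {x : K} (hx : Transcendental E x) :
    LinearIndependent E fun i : ℕ => (AdjoinSimple.gen E x) ^ i := by
  have h1 : Transcendental E (AdjoinSimple.gen E x) := by
    intro h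
    apply hx
    exact IsAlgebraic.algebraMap (S := E⟮x⟯) (A := K) h
  have h3 : LinearIndependent E fun i : ℕ => (Polynomial.basisMonomials E i : E[X]) :=
    (Polynomial.basisMonomials E).linearIndependent
  have h4 := h3.map' (Polynomial.aeval (AdjoinSimple.gen E x)).toLinearMap (by
    rw [LinearMap.ker_eq_bot]
    exact transcendental_iff_injective.1 h1)
  have h5 : (fun i : ℕ => (AdjoinSimple.gen E x) ^ i) =
      (Polynomial.aeval (AdjoinSimple.gen E x)).toLinearMap ∘ fun i : ℕ =>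
        (Polynomial.basisMonomials E i : E[X]) := by
    funext i
    simp [Polynomial.coe_basisMonomials, Polynomial.aeval_monomial]
  rw [h5]
  exact h4

theorem exists_spaces [CharZero E] {x : K} (hx : Transcendental E x) (hfin : FiniteDimensional E⟮x⟯ K)
    {V : ValuationSubring K} (hb : ∀ e : E, algebraMap E K e ∈ V) (hxV : x ∉ V) :
    ∃ c : ℕ, ∀ N : ℕ, ∃ W : Submodule E K, FiniteDimensional E W ∧
      Module.finrank E W = Module.finrank E⟮x⟯ K * (N + 1) ∧ W ≤ UU E V hb x (N + c) ∧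
      ∀ w ∈ W, IsIntegral (Algebra.adjoin E {x}) w := by
  obtain ⟨y, hy, hind⟩ := prim hfin
  have hv1 : 1 < V.valuation x := by
    by_contra h
    exact hxV ((V.valuation_le_one_iff _).1 (not_lt.1 h))
  choose k hk using fun j : Fin (Module.finrank E⟮x⟯ K) => val_le hfin hb hxV (y ^ (j : ℕ))
  refine ⟨∑ j, k j, fun N => ?_⟩
  have h1 : LinearIndependent E fun i : Fin (N + 1) => (AdjoinSimple.gen E x) ^ (i : ℕ) :=
    (pow_ind hx).comp (fun i : Fin (N + 1) => (i : ℕ)) Fin.val_injective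
  have h2 := linearIndependent_smul h1 hind
  refine ⟨Submodule.span E (Set.range fun q : Fin (N + 1) × Fin (Module.finrank E⟮x⟯ K) =>
    (AdjoinSimple.gen E x) ^ (q.1 : ℕ) • y ^ (q.2 : ℕ)), ?_, ?_, ?_, ?_⟩
  · exact FiniteDimensional.span_of_finite E (Set.finite_range _)
  · rw [finrank_span_eq_card h2, Fintype.card_prod, Fintype.card_fin, Fintype.card_fin, mul_comm]
  · rw [Submodule.span_le]
    rintro _ ⟨⟨i, j⟩, rfl⟩
    show V.valuation ((AdjoinSimple.gen E x) ^ (i : ℕ) • y ^ (j : ℕ)) ≤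
      V.valuation x ^ (N + ∑ j, k j)
    have h3 : (AdjoinSimple.gen E x) ^ (i : ℕ) • y ^ (j : ℕ) = x ^ (i : ℕ) * y ^ (j : ℕ) := rfl
    rw [h3, map_mul, map_pow, pow_add]
    have h4 : V.valuation x ^ (i : ℕ) ≤ V.valuation x ^ N :=
      pow_le_pow_right₀ hv1.le (Nat.lt_succ_iff.1 i.2)
    have h5 : V.valuation (y ^ (j : ℕ)) ≤ V.valuation x ^ (∑ j, k j) :=
      (hk j).trans (pow_le_pow_right₀ hv1.le (Finset.single_le_sum (fun _ _ => Nat.zero_le _)
        (Finset.mem_univ j)))
    exact mul_le_mul' h4 h5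
  · intro w hw
    induction hw using Submodule.span_induction with
    | mem w hw =>
      obtain ⟨⟨i, j⟩, rfl⟩ := hw
      have h3 : (AdjoinSimple.gen E x) ^ (i : ℕ) • y ^ (j : ℕ) = x ^ (i : ℕ) * y ^ (j : ℕ) := rfl
      show IsIntegral _ ((AdjoinSimple.gen E x) ^ (i : ℕ) • y ^ (j : ℕ))
      rw [h3]
      refine IsIntegral.mul (IsIntegral.pow ?_ _) (hy.pow _)
      exact isIntegral_algebraMap (x := (⟨x, Algebra.self_mem_adjoin_singleton E x⟩ :
        Algebra.adjoin E {x}))
    | zero => exact isIntegral_zero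
    | add a b _ _ ha hb => exact ha.add hb
    | smul e a _ ha =>
      rw [Algebra.smul_def]
      refine IsIntegral.mul ?_ ha
      exact isIntegral_algebraMap (x := algebraMap E (Algebra.adjoin E {x}) e)

end Pool.Agent.H13.RI
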