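import Pool.Agent.H13.RI.G
import Pool.Agent.H82.NS.Def

/-!
# [H13 RI H] Riemann's lemma

`m = [K : E(x)]`. `exists_spaces` for `V0`, `N` large, `dim_le`: `dim (W ⊓ U 0) ≥ m (N + 1) + (N + c) - (N + c) m
= m + N + c - c m ≥ m`. If all elements of `W ⊓ U 0` were algebraic over `E`: a basis `z_1, .., z_r`, `r ≥ m`, has
`v0 z_i ≤ 1`, and `v0 (∑ c_i z_i) ≤ v0 x⁻¹ < 1` means `∑ c_i z_i = 0` (an algebraic element `a ≠ 0` has `v0 a = 1`: `a` and
`a⁻¹` are integral over `E`, and `V0` is integrally closed), so `c = 0`; `res_le`: `r + 1 ≤ m`, contradiction. So some `g` is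
transcendental.
-/

set_option autoImplicit false

open Polynomial IntermediateField

namespace Pool.Agent.H13.RI

variable {E K : Type} [Field E] [Field K] [Algebra E K]

private theorem alg_mem {V : ValuationSubring K} (hb : ∀ e : E, algebraMap E K e ∈ V) {a : K}
    (ha : IsIntegral E a) : a ∈ V := by
  obtain ⟨p, hp, hpa⟩ := ha
  have h1 : IsIntegral V a := by
    refine ⟨p.map ((algebraMap E K).codRestrict V.toSubring hb), hp.map _, ?_⟩
    rw [eval₂_map]
    exact hpa
  obtain ⟨y, hy⟩ := (IsIntegrallyClosed.isIntegral_iff (R := V) (K := K)).1 h1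
  rw [← hy]
  exact y.2

private theorem alg_zero {V : ValuationSubring K} (hb : ∀ e : E, algebraMap E K e ∈ V) {a : K}
    (ha : IsAlgebraic E a) (hv : V.valuation a < 1) : a = 0 := by
  by_contra h0
  have h1 : IsIntegral E a⁻¹ := (isAlgebraic_iff_isIntegral).1 ha.inv
  have h2 := (V.valuation_le_one_iff _).2 (alg_mem hb h1)
  rw [map_inv₀] at h2
  have h3 : V.valuation a ≠ 0 := (Valuation.ne_zero_iff _).2 h0
  have h4 : V.valuation a * (V.valuation a)⁻¹ < 1 * 1 := by
    calc V.valuation a * (V.valuation a)⁻¹ ≤ V.valuation a * 1 := mul_le_mul_right h2 _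
      _ = V.valuation a := mul_one _
      _ < 1 := hv
      _ = 1 * 1 := (mul_one 1).symm
  rw [mul_inv_cancel₀ h3, mul_one] at h4
  exact lt_irrefl _ h4

theorem ri [CharZero E] (x : K) (hK : H82.NS.FF E x) (V0 V1 : ValuationSubring K)
    (h0 : H82.NS.Inf E x V0) (h1 : H82.NS.Inf E x V1) (hne : V0 ≠ V1) :
    ∃ g ∈ V0, IsIntegral (Algebra.adjoin E {x}) g ∧ Transcendental E g := by
  obtain ⟨c, hc⟩ := exists_spaces hK.tr hK.fin h0.base h0.pole
  obtain ⟨W, hWf, hWd, hWU, hWi⟩ := hc (c * Module.finrank E⟮x⟯ K)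
  haveI := hWf
  have hd := dim_le hK.fin h0.base h0.pole h1.base h1.pole hne W _ hWU
  obtain ⟨m, hm⟩ : ∃ m, m = Module.finrank E⟮x⟯ K := ⟨_, rfl⟩
  obtain ⟨r, hr⟩ : ∃ r, r = Module.finrank E
    (W ⊓ UU E V0 h0.base x 0 : Submodule E K) := ⟨_, rfl⟩
  rw [hWd, ← hm, ← hr] at hd
  have hrm : m ≤ r := by
    have h3 : m * (c * m + 1) + (c * m + c) = m * (c * m) + m + c * m + c := by ring
    have h4 : (c * m + c) * m = m * (c * m) + c * m := by ring
    rw [h3, h4] at hd
    omega
  by_contra hcon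
  have halg : ∀ w ∈ (W ⊓ UU E V0 h0.base x 0 : Submodule E K), IsAlgebraic E w := by
    intro w hw
    by_contra hw'
    apply hcon
    refine ⟨w, ?_, hWi w hw.1, hw'⟩
    have h3 : V0.valuation w ≤ V0.valuation x ^ 0 := hw.2
    rw [pow_zero] at h3
    exact (V0.valuation_le_one_iff _).1 h3
  haveI : FiniteDimensional E (W ⊓ UU E V0 h0.base x 0 : Submodule E K) :=
    Submodule.finiteDimensional_inf_left _ _
  obtain ⟨b⟩ : Nonempty (Module.Basis (Fin r) E (W ⊓ UU E V0 h0.base x 0 : Submodule E K)) :=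
    ⟨(Module.finBasis E _).reindex (finCongr hr.symm)⟩
  have hres := res_le hK.fin h0.base h0.pole h1.base h1.pole hne (fun i => (b i : K)) (fun i => by
    have h3 : V0.valuation (b i : K) ≤ V0.valuation x ^ 0 := (b i).2.2
    rwa [pow_zero] at h3) (fun d hd' => by
    have h3 : (∑ i, d i • (b i : K)) = ((∑ i, d i • b i :
        (W ⊓ UU E V0 h0.base x 0 : Submodule E K)) : K) := by
      rw [Submodule.coe_sum]
      rfl
    have h4 : 1 < V0.valuation x := by
      rw [← not_le, V0.valuation_le_one_iff]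
      exact h0.pole
    have h5 : (V0.valuation x)⁻¹ < 1 := inv_lt_one_of_one_lt₀ h4
    have h6 := alg_zero h0.base (halg _ (∑ i, d i • b i).2) (by
      rw [← h3]
      exact hd'.trans_lt h5)
    have h7 : (∑ i, d i • b i) = 0 := Subtype.ext h6
    funext i
    exact Fintype.linearIndependent_iff.1 b.linearIndependent d h7 i)
  rw [← hm] at hres
  omega

end Pool.Agent.H13.RI
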